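import Pool.Agent.Helper71.CH.Basic
import Pool.Agent.Helper61.CH.Weights
import Pool.Agent.Helper87.CH.Cost
import Pool.Agent.Helper14.CG.Phase

/-!
# Project CH (helper75), module CH-G: the stars to the blocks of generation `j`
-/

set_option autoImplicit false

namespace Pool.Agent.Helper75.CG

open scoped Classical
open Finset
open Pool.Agent.Helper65.CliqueGame

namespace Setup

variable {V Δ : Type} [Fintype V] [Fintype Δ] (X : Setup V Δ)

/-- the active stars -/
noncomputable def h90_act (j : ℕ) (Y : Δ → Finset V) : Finset (V × Δ) :=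
  univ.filter (fun i => X.gen i.2 = j ∧ j < X.gv i.1 ∧ insert i.1 (Y i.2) ∈ X.SS0)

theorem h90_mem_act {j : ℕ} {Y : Δ → Finset V} {i : V × Δ} :
    i ∈ X.h90_act j Y ↔ X.gen i.2 = j ∧ j < X.gv i.1 ∧ insert i.1 (Y i.2) ∈ X.SS0 := by
  simp [h90_act]

theorem h90_mem_part {S : Finset V} {δ : Δ} {x : V} :
    x ∈ X.part S δ ↔ x ∈ S ∧ X.dis x = δ := by
  rw [part, mem_filter]

theorem h90_mem_dset {δ : Δ} {x : V} : x ∈ X.dset δ ↔ X.dis x = δ := by
  rw [dset, mem_filter]
  exact and_iff_right (mem_univ x)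

theorem h90_part_union (S T : Finset V) (δ : Δ) :
    X.part (S ∪ T) δ = X.part S δ ∪ X.part T δ := filter_union _ _ _

theorem h90_sel_union {j : ℕ} {Y : Δ → Finset V} {S T : Finset V} (hS : X.Sel j Y S)
    (hT : X.Sel j Y T) : X.Sel j Y (S ∪ T) := by
  intro δ hδ
  rw [X.h90_part_union]
  rcases hS δ hδ with h | h <;> rcases hT δ hδ with h' | h' <;> rw [h, h']
  · left; simp
  · right; simp
  · right; simp
  · right; simp

/-- the conclusion of `Sel` in terms of cardinalities -/
theorem h90_sel_card {j : ℕ} (hj : j ≤ X.R) {Y : Δ → Finset V}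
    (hY : ∀ δ, X.gen δ < j → Y δ ⊆ X.dset δ ∧ (Y δ).card = X.m) {S : Finset V}
    (hS : X.Sel j Y S) : ∀ δ, X.gen δ < j →
      (X.part S δ).card = 0 ∨ (X.part S δ).card = X.bs (X.gen δ) := by
  intro δ hδ
  rcases hS δ hδ with h | h
  · left; rw [h, card_empty]
  · right; rw [h, (hY δ hδ).2, bs, if_pos (hδ.trans_le hj)]

section

variable {j : ℕ} {Y : Δ → Finset V}
  (hY : ∀ δ, X.gen δ < j + 1 → Y δ ⊆ X.dset δ ∧ (Y δ).card = X.m)

include hY

theorem h90_dis_of_mem {δ : Δ} (hδ : X.gen δ < j + 1) {y : V} (hy : y ∈ Y δ) : X.dis y = δ :=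
  X.h90_mem_dset.1 ((hY δ hδ).1 hy)

theorem h90_nonempty {δ : Δ} (hδ : X.gen δ < j + 1) : (Y δ).Nonempty := by
  rw [← card_pos, (hY δ hδ).2]
  have := X.hm
  omega

theorem h90_sel_star {δ : Δ} (hδ : X.gen δ = j) {v : V} (hv : j < X.gv v) :
    X.Sel (j + 1) Y (insert v (Y δ)) := by
  intro δ' hδ'
  by_cases h : δ' = δ
  · right
    subst h
    ext x
    rw [X.h90_mem_part, mem_insert]
    constructor
    · rintro ⟨rfl | hx, h2⟩
      · exfalso
        unfold gv at hv
        rw [h2] at hv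
        omega
      · exact hx
    · intro hx
      exact ⟨Or.inr hx, X.h90_dis_of_mem hY hδ' hx⟩
  · left
    rw [eq_empty_iff_forall_notMem]
    intro x hx
    rw [X.h90_mem_part, mem_insert] at hx
    obtain ⟨rfl | hx, h2⟩ := hx
    · unfold gv at hv
      rw [h2] at hv
      omega
    · exact h (h2.symm.trans (X.h90_dis_of_mem hY (by omega) hx))

/-- alive sets which meet the block of `δ` contain it -/
theorem h90_link {A : Finset V} (hA : X.Sel (j + 1) Y A) {δ : Δ} (hδ : X.gen δ < j + 1) {x : V}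
    (hx : x ∈ A) (hd : X.dis x = δ) : Y δ ⊆ A ∧ x ∈ Y δ := by
  have h1 : x ∈ X.part A δ := X.h90_mem_part.2 ⟨hx, hd⟩
  rcases hA δ hδ with h | h
  · rw [h] at h1
    exact absurd h1 (notMem_empty _)
  · refine ⟨?_, h ▸ h1⟩
    rw [← h]
    exact filter_subset _ _

theorem h90_count (hj : j < X.R) {S : Finset V} (hS : S ∈ X.SSt (j + 1) Y) :
    ((X.h90_act j Y).filter (fun i => insert i.1 (Y i.2) ⊆ S)).card = X.st j S := by
  rw [SSt, mem_filter] at hS
  obtain ⟨hS0, hSel⟩ := hS
  have h1 : (X.h90_act j Y).filter (fun i => insert i.1 (Y i.2) ⊆ S) =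
      (S.filter (fun x => j < X.gv x)) ×ˢ
        (univ.filter (fun δ => X.gen δ = j ∧ (X.part S δ).card = X.bs j)) := by
    ext ⟨v, δ⟩
    rw [mem_filter, X.h90_mem_act, mem_product, mem_filter, mem_filter]
    constructor
    · rintro ⟨⟨h1, h2, h3⟩, h4⟩
      have h5 : v ∈ S := h4 (mem_insert_self _ _)
      obtain ⟨y, hy⟩ := X.h90_nonempty hY (δ := δ) (by simp only at h1; omega)
      have h6 : y ∈ S := h4 (mem_insert_of_mem hy)
      have h7 : X.dis y = δ := X.h90_dis_of_mem hY (by simp only at h1; omega) hy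
      refine ⟨⟨h5, h2⟩, mem_univ _, h1, ?_⟩
      rcases hSel δ (by simp only at h1; omega) with h | h
      · exfalso
        have h8 : y ∈ X.part S δ := X.h90_mem_part.2 ⟨h6, h7⟩
        rw [h] at h8
        exact absurd h8 (notMem_empty _)
      · simp only
        rw [h, (hY δ (by simp only at h1; omega)).2, bs, if_pos hj]
    · rintro ⟨⟨h1, h2⟩, -, h3, h4⟩
      simp only at h1 h2 h3 h4
      have h5 : Y δ ⊆ S := by
        rcases hSel δ (by omega) with h | h
        · exfalso
          rw [h, card_empty, bs, if_pos hj] at h4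
          have := X.hm
          omega
        · rw [← h]
          exact filter_subset _ _
      have h6 : insert v (Y δ) ⊆ S := by
        rw [insert_subset_iff]
        exact ⟨h1, h5⟩
      exact ⟨⟨h3, h2, X.SS0_sub hS0 h6 ⟨v, mem_insert_self _ _⟩⟩, h6⟩
  rw [h1, card_product, st, later, ff, mul_comm]

end

theorem h90_capE (c : ℝ) (G : Finset V → ℝ) {j : ℕ} {Y : Δ → Finset V}
    (hY : ∀ δ, X.gen δ < j + 1 → Y δ ⊆ X.dset δ ∧ (Y δ).card = X.m)
    (hj : j < X.R) {S : Finset V} (hS : S ∈ X.SSt (j + 1) Y) :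
    claims (X.m : ℝ) (fun i : V × Δ => insert i.1 (Y i.2)) (X.h90_act j Y)
      (capOf c G (X.wT j)) S = capOf c G (X.wE (j + 1)) S := by
  unfold claims capOf
  rw [X.h90_count hY hj hS, wT]
  have h1 : (0 : ℝ) < ((X.m : ℝ) + 1) ^ (X.st j S) := by positivity
  have h2 := X.wE_pos (j + 1) S
  rw [add_comm (1 : ℝ)]
  field_simp

theorem h90_sum {j : ℕ} (hj : j ≤ X.R) (Y : Δ → Finset V) {F : ℕ → ℝ} {b : ℝ} (hb : 0 ≤ b)
    (hF : ∀ i, 0 ≤ F i)
    (h : ∀ i, j < i → i ≤ X.R → (2 : ℝ) ^ (X.y j) * ((2 : ℝ) ^ (X.y i + X.z i) * F i) ≤ b) :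
    ∑ i ∈ X.h90_act j Y, F (X.gv i.1) ≤ (X.R + 1) * b := by
  have h1 : X.h90_act j Y ⊆ (univ.filter (fun x : V => j < X.gv x)) ×ˢ
      (univ.filter (fun δ : Δ => X.gen δ = j)) := by
    intro i hi
    rw [X.h90_mem_act] at hi
    rw [mem_product, mem_filter, mem_filter]
    exact ⟨⟨mem_univ _, hi.2.1⟩, mem_univ _, hi.1⟩
  refine (sum_le_sum_of_subset_of_nonneg h1 (fun i _ _ => hF _)).trans ?_
  rw [sum_product]
  simp only [sum_const, nsmul_eq_mul]
  rw [← mul_sum, X.card_gen j hj]
  have h2 : ∑ x ∈ univ.filter (fun x : V => j < X.gv x), F (X.gv x) =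
      ∑ i ∈ Ioc j X.R, ∑ x ∈ (univ.filter (fun x : V => j < X.gv x)).filter
        (fun x => X.gv x = i), F (X.gv x) := by
    rw [sum_fiberwise_of_maps_to]
    intro x hx
    rw [mem_filter] at hx
    rw [mem_Ioc]
    exact ⟨hx.2, X.gen_le _⟩
  rw [h2, mul_sum]
  have h3 : ∀ i ∈ Ioc j X.R, (((2 : ℕ) ^ X.y j : ℕ) : ℝ) *
      ∑ x ∈ (univ.filter (fun x : V => j < X.gv x)).filter (fun x => X.gv x = i),
        F (X.gv x) ≤ b := by
    intro i hi
    rw [mem_Ioc] at hi
    have h4 : ∑ x ∈ (univ.filter (fun x : V => j < X.gv x)).filter (fun x => X.gv x = i),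
        F (X.gv x) = ((2 : ℝ) ^ (X.y i + X.z i)) * F i := by
      rw [sum_congr rfl (g := fun _ => F i), sum_const, nsmul_eq_mul]
      · congr 1
        rw [filter_filter]
        have h5 : (univ.filter (fun x : V => j < X.gv x ∧ X.gv x = i)) =
            univ.filter (fun x : V => X.gv x = i) := by
          apply filter_congr
          intro x _
          constructor
          · exact fun h => h.2
          · intro h; exact ⟨by rw [h]; exact hi.1, h⟩
        rw [h5, X.card_gv hi.2]
        push_cast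
        rfl
      · intro x hx
        rw [mem_filter] at hx
        rw [hx.2]
    rw [h4]
    push_cast
    exact h i hi.1 hi.2
  refine (sum_le_sum h3).trans ?_
  rw [sum_const, nsmul_eq_mul, Nat.card_Ioc]
  apply mul_le_mul_of_nonneg_right _ hb
  have h6 : ((X.R - j : ℕ) : ℝ) ≤ (X.R : ℝ) := by exact_mod_cast Nat.sub_le _ _
  linarith

/-- CH-G: the stars to the blocks of generation `j`. -/
theorem stepT (m R : ℕ) (hm : 1 ≤ m) : ∃ K : ℝ, 0 < K ∧ ∀ {V Δ : Type} [Fintype V] [Fintype Δ]
    {n q : ℕ} (X : Setup V Δ) (emb : V ↪ Fin n) (G : Finset V → ℝ) (ν E : ℝ) (zm D : ℕ)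
    (c : ℝ) (j : ℕ) (Y : Δ → Finset V) (φ : Finset V → ℝ) (M B : Finset (Sym2 (Fin n))),
    X.m = m → X.R = R → X.Sz G ν E zm D → 0 < c → j < R →
    X.Inv emb (j + 1) Y (X.fpS j) φ M B →
    (∀ (M' B' : Finset (Sym2 (Fin n))) (φ' : Finset V → ℝ),
      X.Inv emb (j + 1) Y (X.fpE (j + 1)) φ' M' B' →
      PP (X.SSt (j + 1) Y) φ (capOf c G (X.wT j)) - K * c * err ν E zm D ≤
        PP (X.SSt (j + 1) Y) φ' (capOf c G (X.wE (j + 1))) →
      MakerWins n m q true M' B') →
    MakerWins n m q true M B := by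
  obtain ⟨C, hC0, hC⟩ := phase m (m + 1) hm
  refine ⟨C * (R + 1), by positivity, ?_⟩
  intro V Δ _ _ n q X emb G ν E zm D c j Y φ M B hXm hXR hSz hc hj hI hcont
  subst hXm hXR
  have hY := hI.ycard
  have hE0 : 0 ≤ E := zero_le_one.trans hSz.E1
  have hcE : 0 ≤ c * E := by positivity
  have hmpos : 1 ≤ X.m := hm
  -- basic facts on the active elements
  have hact : ∀ i ∈ X.h90_act j Y, X.gen i.2 = j ∧ j < X.gv i.1 ∧
      insert i.1 (Y i.2) ∈ X.SS0 := fun i hi => X.h90_mem_act.1 hi
  have hYdis : ∀ i ∈ X.h90_act j Y, ∀ y ∈ Y i.2, X.dis y = i.2 := by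
    intro i hi y hy
    exact X.h90_dis_of_mem hY (by rw [(hact i hi).1]; omega) hy
  have hYgv : ∀ i ∈ X.h90_act j Y, ∀ y ∈ Y i.2, X.gv y = j := by
    intro i hi y hy
    rw [gv, hYdis i hi y hy, (hact i hi).1]
  have hne : ∀ i ∈ X.h90_act j Y, ∀ y ∈ Y i.2, i.1 ≠ y := by
    intro i hi y hy h
    have h1 := (hact i hi).2.1
    rw [h, hYgv i hi y hy] at h1
    omega
  have hSS : ∀ i ∈ X.h90_act j Y, insert i.1 (Y i.2) ∈ X.SSt (j + 1) Y := by
    intro i hi
    rw [SSt, mem_filter]
    exact ⟨(hact i hi).2.2, X.h90_sel_star hY (hact i hi).1 (hact i hi).2.1⟩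
  have hcard : ∀ i ∈ X.h90_act j Y, (insert i.1 (Y i.2)).card ≤ X.m + 1 := by
    intro i hi
    refine (card_insert_le _ _).trans ?_
    rw [(hY i.2 (by rw [(hact i hi).1]; omega)).2]
  have hclaims : ∀ S ∈ X.SSt (j + 1) Y, claims (X.m : ℝ) (fun i : V × Δ => insert i.1 (Y i.2))
      (X.h90_act j Y) (capOf c G (X.wT j)) S = capOf c G (X.wE (j + 1)) S :=
    fun S hS => X.h90_capE c G hY hj hS
  have hbound : ∀ S ∈ X.SSt (j + 1) Y, S.card ≤ 2 * X.m + 2 →
      capOf c G (X.wE (j + 1)) S ≤ c * E * (1 / 2) ^ (X.pc (j + 1) S) := by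
    intro S hS hSc
    rw [SSt, mem_filter] at hS
    exact X.cap_bound hSz hc hj hS.1 (X.h90_sel_card hj hY hS.2) hSc (X.prod_le_wE (j + 1) S)
  have halive : ∀ A, φ A ≠ 0 → ∀ S ⊆ A, S.Nonempty → X.Sel (j + 1) Y S →
      S ∈ X.SSt (j + 1) Y := by
    intro A hA S hSA hSn hSel
    rw [SSt, mem_filter]
    exact ⟨X.mem_SS0_of_adm (hI.supp A hA).1 hSA hSn, hSel⟩
  refine hC emb (X.SSt (j + 1) Y) (X.h90_act j Y) (fun i => insert i.1 (Y i.2))
    (fun i => (Y i.2).image (fun y => s(emb i.1, emb y))) X.m 1 ν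
    (c * E * (1 / 2) ^ (X.y X.R + X.y j + D))
    (fun i => c * E * (1 / 2) ^ (X.y j + (X.y (X.gv i.1) + X.z (X.gv i.1))))
    (fun i => c * E * (1 / 2) ^ (X.y j + (X.y (X.gv i.1) + X.z (X.gv i.1)) + zm))
    φ (capOf c G (X.wT j)) M B hmpos le_rfl (one_mul _) hSz.nu0 hSz.nu1 hI.disj hI.sub
    hcard ?_ ?_ ?_ ?_ hI.nonneg ?_ hI.alive ?_ ?_ ?_ ?_ (by positivity) ?_ ?_
  · -- the number of edges
    intro i hi
    refine card_image_le.trans ?_
    rw [(hY i.2 (by rw [(hact i hi).1]; omega)).2]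
  · -- the edges
    intro i hi e he
    rw [mem_image] at he
    obtain ⟨y, hy, rfl⟩ := he
    exact ⟨i.1, mem_insert_self _ _, y, mem_insert_of_mem hy, hne i hi y hy, rfl⟩
  · -- the edges are disjoint
    intro i hi i' hi' hii'
    rw [disjoint_left]
    intro e he he'
    rw [mem_image] at he he'
    obtain ⟨y, hy, rfl⟩ := he
    obtain ⟨y', hy', h⟩ := he'
    rw [Sym2.eq_iff] at h
    apply hii'
    rcases h with ⟨h1, h2⟩ | ⟨h1, h2⟩
    · have h3 := emb.injective h1
      have h4 := emb.injective h2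
      apply Prod.ext h3.symm
      rw [← hYdis i hi y hy, ← hYdis i' hi' y' hy', h4]
    · exfalso
      have h3 := emb.injective h1
      have h4 := (hact i' hi').2.1
      rw [h3, hYgv i hi y hy] at h4
      omega
  · -- alive structures contain the star as soon as they contain an edge of it
    intro A hA i hi x hx y hy hxy
    rw [mem_image] at hxy
    obtain ⟨w, hw, h⟩ := hxy
    rw [Sym2.eq_iff] at h
    have hSel := (hI.supp A hA).2
    have hg : X.gen i.2 < j + 1 := by rw [(hact i hi).1]; omega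
    rcases h with ⟨h1, h2⟩ | ⟨h1, h2⟩
    · have h3 := emb.injective h1
      have h4 := emb.injective h2
      subst h4
      rw [insert_subset_iff]
      exact ⟨h3 ▸ hx, (X.h90_link hY hSel hg hy (hYdis i hi _ hw)).1⟩
    · have h3 := emb.injective h1
      have h4 := emb.injective h2
      subst h4
      rw [insert_subset_iff]
      exact ⟨h3 ▸ hy, (X.h90_link hY hSel hg hx (hYdis i hi _ hw)).1⟩
  · -- the capacities are positive
    intro S
    exact div_pos (mul_pos hc (hSz.pos S)) (X.wT_pos j S)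
  · -- slope
    intro A hA S hS i hi hSA hnot
    have hS' := hS
    rw [SSt, mem_filter] at hS'
    have hT : S ∪ insert i.1 (Y i.2) ∈ X.SSt (j + 1) Y := by
      refine halive A hA _ hSA ⟨i.1, mem_union_right _ (mem_insert_self _ _)⟩ ?_
      exact X.h90_sel_union hS'.2 (X.h90_sel_star hY (hact i hi).1 (hact i hi).2.1)
    refine ⟨hT, ?_⟩
    have hT' := hT
    rw [SSt, mem_filter] at hT'
    have hsub : S ⊆ S ∪ insert i.1 (Y i.2) := subset_union_left
    have hss : S ⊂ S ∪ insert i.1 (Y i.2) := by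
      refine ⟨hsub, fun h => hnot ?_⟩
      exact subset_union_right.trans h
    -- counting
    have hcnt : ((X.h90_act j Y).filter (fun i' => insert i'.1 (Y i'.2) ⊆
        S ∪ insert i.1 (Y i.2) ∧ ¬ insert i'.1 (Y i'.2) ⊆ S)).card + X.st j S =
        X.st j (S ∪ insert i.1 (Y i.2)) := by
      rw [← X.h90_count hY hj hS, ← X.h90_count hY hj hT, ← card_union_of_disjoint]
      · congr 1
        ext i'
        rw [mem_union, mem_filter, mem_filter, mem_filter]
        constructor
        · rintro (⟨h1, h2, -⟩ | ⟨h1, h2⟩)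
          · exact ⟨h1, h2⟩
          · exact ⟨h1, h2.trans hsub⟩
        · rintro ⟨h1, h2⟩
          by_cases h3 : insert i'.1 (Y i'.2) ⊆ S
          · exact Or.inr ⟨h1, h3⟩
          · exact Or.inl ⟨h1, h2, h3⟩
      · rw [disjoint_left]
        intro i' h1 h2
        rw [mem_filter] at h1 h2
        exact h1.2.2 h2.2
    have hcompl : ∀ δ ∈ X.compl S (S ∪ insert i.1 (Y i.2)), j + 1 ≤ X.gen δ := by
      intro δ hδ
      exact X.compl_ge hj (fun δ' hδ' => (hY δ' hδ').2) hS'.2 hδ
    have h1 := hSz.slope S hS'.1 _ hT'.1 hss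
    have h2 := X.wE_mono (j := j + 1) hj hT'.1 hsub hcompl
    have hwS := X.wE_pos (j + 1) S
    have hwT := X.wE_pos (j + 1) (S ∪ insert i.1 (Y i.2))
    have hGS := hSz.pos S
    have hpS : (0 : ℝ) < ((X.m : ℝ) + 1) ^ (X.st j S) := by positivity
    have hgoal : G (S ∪ insert i.1 (Y i.2)) / X.wE (j + 1) (S ∪ insert i.1 (Y i.2)) ≤
        ν * (G S / X.wE (j + 1) S) := by
      rw [div_le_iff₀ hwT, mul_assoc, div_mul_eq_mul_div, ← mul_div_assoc, le_div_iff₀ hwS]
      calc G (S ∪ insert i.1 (Y i.2)) * X.wE (j + 1) S ≤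
          (ν * G S * ∏ δ ∈ X.compl S (S ∪ insert i.1 (Y i.2)), (X.NN (X.gen δ) : ℝ)) *
            X.wE (j + 1) S := mul_le_mul_of_nonneg_right h1 hwS.le
        _ = ν * G S * ((∏ δ ∈ X.compl S (S ∪ insert i.1 (Y i.2)), (X.NN (X.gen δ) : ℝ)) *
            X.wE (j + 1) S) := by ring
        _ ≤ ν * G S * X.wE (j + 1) (S ∪ insert i.1 (Y i.2)) :=
            mul_le_mul_of_nonneg_left h2 (mul_nonneg hSz.nu0 hGS.le)
        _ = ν * (G S * X.wE (j + 1) (S ∪ insert i.1 (Y i.2))) := by ring
    unfold capOf wT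
    rw [← hcnt, pow_add, add_comm (1 : ℝ)]
    set a : ℝ := ((X.m : ℝ) + 1) ^ ((X.h90_act j Y).filter (fun i' => insert i'.1 (Y i'.2) ⊆
        S ∪ insert i.1 (Y i.2) ∧ ¬ insert i'.1 (Y i'.2) ⊆ S)).card with ha
    have ha0 : 0 < a := by positivity
    have e1 : a * (c * G (S ∪ insert i.1 (Y i.2)) / (a * ((X.m : ℝ) + 1) ^ X.st j S *
        X.wE (j + 1) (S ∪ insert i.1 (Y i.2)))) = (c / ((X.m : ℝ) + 1) ^ X.st j S) *
        (G (S ∪ insert i.1 (Y i.2)) / X.wE (j + 1) (S ∪ insert i.1 (Y i.2))) := by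
      field_simp
    have e2 : ν * (c * G S / (((X.m : ℝ) + 1) ^ X.st j S * X.wE (j + 1) S)) =
        (c / ((X.m : ℝ) + 1) ^ X.st j S) * (ν * (G S / X.wE (j + 1) S)) := by
      field_simp
    rw [e1, e2]
    exact mul_le_mul_of_nonneg_left hgoal (div_nonneg hc.le hpS.le)
  · -- masses of the active elements
    intro i hi
    refine ⟨hSS i hi, ?_⟩
    rw [hclaims _ (hSS i hi)]
    refine (hbound _ (hSS i hi) ?_).trans ?_
    · have := hcard i hi
      omega
    · rw [X.pc_star (hact i hi).1 (hact i hi).2.1 (hY i.2 (by rw [(hact i hi).1]; omega)).1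
        (X.h90_nonempty hY (by rw [(hact i hi).1]; omega))]
  · intro i hi
    positivity
  · -- pairs of active elements
    rintro i hi i' hi' hii' ⟨A, hA, hsub⟩
    have hmem : insert i.1 (Y i.2) ∪ insert i'.1 (Y i'.2) ∈ X.SSt (j + 1) Y := by
      refine halive A hA _ hsub ⟨i.1, mem_union_left _ (mem_insert_self _ _)⟩ ?_
      exact X.h90_sel_union (X.h90_sel_star hY (hact i hi).1 (hact i hi).2.1)
        (X.h90_sel_star hY (hact i' hi').1 (hact i' hi').2.1)
    refine ⟨hmem, ?_⟩
    rw [hclaims _ hmem]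
    refine (hbound _ hmem ?_).trans ?_
    · refine (card_union_le _ _).trans ?_
      have := hcard i hi
      have := hcard i' hi'
      omega
    · have hmem' := hmem
      rw [SSt, mem_filter] at hmem'
      have hi2 := hSS i hi
      rw [SSt, mem_filter] at hi2
      have hss : insert i.1 (Y i.2) ⊂ insert i.1 (Y i.2) ∪ insert i'.1 (Y i'.2) := by
        refine ⟨subset_union_left, fun h => hii' ?_⟩
        have h1 : insert i'.1 (Y i'.2) ⊆ insert i.1 (Y i.2) := subset_union_right.trans h
        have h2 : i'.1 = i.1 := by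
          have h3 := h1 (mem_insert_self _ _)
          rw [mem_insert] at h3
          rcases h3 with h3 | h3
          · exact h3
          · exfalso
            have h4 := (hact i' hi').2.1
            rw [hYgv i hi _ h3] at h4
            omega
        obtain ⟨y, hy⟩ := X.h90_nonempty hY (δ := i'.2) (by rw [(hact i' hi').1]; omega)
        have h3 := h1 (mem_insert_of_mem hy)
        rw [mem_insert] at h3
        rcases h3 with h3 | h3
        · exfalso
          have h4 := (hact i hi).2.1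
          rw [← h3, hYgv i' hi' _ hy] at h4
          omega
        · apply Prod.ext h2.symm
          rw [← hYdis i hi y h3, ← hYdis i' hi' y hy]
      have h5 := X.pc_lt hSz.zm_z hSz.zm_y hmem'.1 (X.h90_sel_card hj hY hi2.2)
        (X.h90_sel_card hj hY hmem'.2) hss
      rw [X.pc_star (hact i hi).1 (hact i hi).2.1 (hY i.2 (by rw [(hact i hi).1]; omega)).1
        (X.h90_nonempty hY (by rw [(hact i hi).1]; omega))] at h5
      apply mul_le_mul_of_nonneg_left _ hcE
      exact pow_le_pow_of_le_one (by norm_num) (by norm_num) h5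
  · -- passive pairs
    rintro x y hxy hM hnot ⟨A, hA, hx, hy⟩
    have hfp : ¬ X.fpS j x y := fun h => hM (hI.fin A hA x hx y hy hxy h)
    unfold fpS fpE at hfp
    push Not at hfp
    obtain ⟨⟨h1, h2, h3⟩, h4⟩ := hfp
    have hSel := (hI.supp A hA).2
    have hadm := (hI.supp A hA).1
    have key : ∀ x ∈ A, ∀ y ∈ A, X.gv x = j → j < X.gv y →
        ∃ i ∈ X.h90_act j Y, s(emb y, emb x) ∈ (Y i.2).image (fun w => s(emb i.1, emb w)) := by
      intro x hx y hy hgx hgy
      have h5 := X.h90_link hY hSel (δ := X.dis x) (by unfold gv at hgx; omega) hx rfl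
      refine ⟨(y, X.dis x), ?_, ?_⟩
      · rw [X.h90_mem_act]
        refine ⟨hgx, hgy, X.mem_SS0_of_adm hadm ?_ ⟨y, mem_insert_self _ _⟩⟩
        rw [insert_subset_iff]
        exact ⟨hy, h5.1⟩
      · exact mem_image_of_mem _ h5.2
    have hx' : j < X.gv x := by
      by_contra hc'
      have h5 : X.gv x = j := by omega
      have h6 : j < X.gv y := by
        have := h4 h5
        omega
      obtain ⟨i, hi, h7⟩ := key x hx y hy h5 h6
      rw [Sym2.eq_swap] at h7
      exact hnot i hi h7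
    have hy' : j < X.gv y := by
      by_contra hc'
      have h5 : X.gv y = j := by omega
      obtain ⟨i, hi, h7⟩ := key y hy x hx h5 hx'
      exact hnot i hi h7
    have hsel2 : X.Sel (j + 1) Y {x, y} := by
      intro δ hδ
      left
      rw [eq_empty_iff_forall_notMem]
      intro w hw
      rw [X.h90_mem_part, mem_insert, mem_singleton] at hw
      obtain ⟨rfl | rfl, hw⟩ := hw
      · unfold gv at hx'
        rw [hw] at hx'
        omega
      · unfold gv at hy'
        rw [hw] at hy'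
        omega
    have hmem : ({x, y} : Finset V) ∈ X.SSt (j + 1) Y := by
      refine halive A hA _ ?_ ⟨x, mem_insert_self _ _⟩ hsel2
      intro w hw
      rw [mem_insert, mem_singleton] at hw
      rcases hw with rfl | rfl
      · exact hx
      · exact hy
    refine ⟨{x, y}, hmem, ?_, ?_⟩
    · intro A' _ hxA hyA w hw
      rw [mem_insert, mem_singleton] at hw
      rcases hw with rfl | rfl
      · exact hxA
      · exact hyA
    · rw [hclaims _ hmem]
      refine (hbound _ hmem ?_).trans ?_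
      · refine (card_insert_le _ _).trans ?_
        rw [card_singleton]
        omega
      · rw [X.pc_cross h1 (by omega) (by omega)]
        apply mul_le_mul_of_nonneg_left _ hcE
        exact pow_le_pow_of_le_one (by norm_num) (by norm_num)
          (hSz.g2 j hj _ (X.gen_le _) _ (X.gen_le _) hx' hy')
  · -- the continuation
    intro M' B' φ' hMM hBB hdis hsubE hφ' halive' hfin hPP
    have hne0 : ∀ A, φ' A ≠ 0 → φ A ≠ 0 := by
      intro A hA h
      rcases hφ' A with h1 | h1
      · apply hA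
        rw [h1]
        unfold claims
        rw [h, mul_zero]
      · exact hA h1
    apply hcont M' B' φ'
    · refine ⟨?_, ?_, halive', hdis, hsubE, hI.ycard, ?_⟩
      · intro A
        rcases hφ' A with h1 | h1
        · rw [h1]
          unfold claims
          exact mul_nonneg (by positivity) (hI.nonneg A)
        · rw [h1]
      · intro A hA
        exact hI.supp A (hne0 A hA)
      · intro A hA x hx y hy hxy hfp
        have hA' := hne0 A hA
        have hSel := (hI.supp A hA').2
        have hadm := (hI.supp A hA').1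
        have key : ∀ x ∈ A, ∀ y ∈ A, X.gv x = j → j < X.gv y → s(emb y, emb x) ∈ M' := by
          intro x hx y hy hgx hgy
          have h5 := X.h90_link hY hSel (δ := X.dis x) (by unfold gv at hgx; omega) hx rfl
          have h6 : insert y (Y (X.dis x)) ⊆ A := by
            rw [insert_subset_iff]
            exact ⟨hy, h5.1⟩
          have h7 : (y, X.dis x) ∈ X.h90_act j Y := by
            rw [X.h90_mem_act]
            exact ⟨hgx, hgy, X.mem_SS0_of_adm hadm h6 ⟨y, mem_insert_self _ _⟩⟩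
          exact hfin A hA (y, X.dis x) h7 h6 (mem_image_of_mem _ h5.2)
        by_cases hS : X.fpS j x y
        · exact hMM (hI.fin A hA' x hx y hy hxy hS)
        · unfold fpS fpE at hS
          push Not at hS
          obtain ⟨⟨h1, h2, h3⟩, h4⟩ := hS
          unfold fpE at hfp
          rcases hfp with h | h | h
          · exact absurd h h1
          · have h5 : X.gv x = j := by omega
            have h6 : j < X.gv y := by
              have := h4 h5
              omega
            rw [Sym2.eq_swap]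
            exact key x hx y hy h5 h6
          · have h5 : X.gv y = j := by omega
            have h6 : j < X.gv x := by
              by_contra hc'
              have h7 : X.gv x = j := by omega
              exact h4 h7 h5
            exact key y hy x hx h5 h6
    · -- the error
      have hPPeq : PP (X.SSt (j + 1) Y) φ' (claims (X.m : ℝ)
          (fun i : V × Δ => insert i.1 (Y i.2)) (X.h90_act j Y) (capOf c G (X.wT j))) =
          PP (X.SSt (j + 1) Y) φ' (capOf c G (X.wE (j + 1))) := by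
        unfold PP
        congr 1
        refine sum_congr rfl fun S hS => ?_
        rw [hclaims S hS]
      rw [hPPeq] at hPP
      refine le_trans ?_ hPP
      have hhalf : ∀ k : ℕ, (2 : ℝ) ^ k * (1 / 2) ^ k = 1 := by
        intro k
        rw [← mul_pow]
        norm_num
      have s1 : ∑ i ∈ X.h90_act j Y,
          c * E * (1 / 2 : ℝ) ^ (X.y j + (X.y (X.gv i.1) + X.z (X.gv i.1))) ≤
          (X.R + 1) * (c * E) := by
        apply X.h90_sum hj.le Y (F := fun i => c * E * (1 / 2 : ℝ) ^ (X.y j + (X.y i + X.z i)))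
          hcE (fun i => by positivity)
        intro i _ _
        have h1 := hhalf (X.y j)
        have h2 := hhalf (X.y i + X.z i)
        rw [pow_add (1 / 2 : ℝ)]
        calc (2 : ℝ) ^ X.y j * (2 ^ (X.y i + X.z i) * (c * E * ((1 / 2) ^ X.y j *
              (1 / 2) ^ (X.y i + X.z i)))) = c * E * ((2 : ℝ) ^ X.y j * (1 / 2) ^ X.y j) *
              (2 ^ (X.y i + X.z i) * (1 / 2) ^ (X.y i + X.z i)) := by ring
          _ ≤ c * E := by rw [h1, h2, mul_one, mul_one]
      have s2 : ∑ i ∈ X.h90_act j Y,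
          c * E * (1 / 2 : ℝ) ^ (X.y j + (X.y (X.gv i.1) + X.z (X.gv i.1)) + zm) ≤
          (X.R + 1) * (c * E * (1 / 2) ^ zm) := by
        apply X.h90_sum hj.le Y
          (F := fun i => c * E * (1 / 2 : ℝ) ^ (X.y j + (X.y i + X.z i) + zm))
          (by positivity) (fun i => by positivity)
        intro i _ _
        have h1 := hhalf (X.y j)
        have h2 := hhalf (X.y i + X.z i)
        rw [pow_add (1 / 2 : ℝ), pow_add (1 / 2 : ℝ)]
        calc (2 : ℝ) ^ X.y j * (2 ^ (X.y i + X.z i) * (c * E * ((1 / 2) ^ X.y j *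
              (1 / 2) ^ (X.y i + X.z i) * (1 / 2) ^ zm))) = c * E * (1 / 2) ^ zm *
              ((2 : ℝ) ^ X.y j * (1 / 2) ^ X.y j) *
              (2 ^ (X.y i + X.z i) * (1 / 2) ^ (X.y i + X.z i)) := by ring
          _ ≤ c * E * (1 / 2) ^ zm := by rw [h1, h2, mul_one, mul_one]
      have s3 : ∑ _i ∈ X.h90_act j Y, c * E * (1 / 2 : ℝ) ^ (X.y X.R + X.y j + D) ≤
          (X.R + 1) * (c * E * (1 / 2) ^ D) := by
        apply X.h90_sum hj.le Y
          (F := fun _ => c * E * (1 / 2 : ℝ) ^ (X.y X.R + X.y j + D))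
          (by positivity) (fun i => by positivity)
        intro i _ hiR
        have h1 := hhalf (X.y j)
        have h2 := hhalf (X.y X.R)
        have h3 : X.y i + X.z i ≤ X.y X.R := by
          rcases hiR.lt_or_eq with h | h
          · have := hSz.g1 i h X.R le_rfl h
            rw [X.zR] at this
            omega
          · rw [h, X.zR]
            omega
        have h4 : (2 : ℝ) ^ (X.y i + X.z i) ≤ 2 ^ X.y X.R :=
          pow_le_pow_right₀ (by norm_num) h3
        calc (2 : ℝ) ^ X.y j * (2 ^ (X.y i + X.z i) *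
              (c * E * (1 / 2) ^ (X.y X.R + X.y j + D))) ≤ 2 ^ X.y j * (2 ^ X.y X.R *
              (c * E * (1 / 2) ^ (X.y X.R + X.y j + D))) := by
                apply mul_le_mul_of_nonneg_left _ (by positivity)
                exact mul_le_mul_of_nonneg_right h4 (by positivity)
          _ = c * E * (1 / 2) ^ D * ((2 : ℝ) ^ X.y j * (1 / 2) ^ X.y j) *
              (2 ^ X.y X.R * (1 / 2) ^ X.y X.R) := by
                rw [pow_add (1 / 2 : ℝ), pow_add (1 / 2 : ℝ)]
                ring
          _ ≤ c * E * (1 / 2) ^ D := by rw [h1, h2, mul_one, mul_one]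
      have htot : ∑ i ∈ X.h90_act j Y,
          (ν * (c * E * (1 / 2 : ℝ) ^ (X.y j + (X.y (X.gv i.1) + X.z (X.gv i.1)))) +
            c * E * (1 / 2 : ℝ) ^ (X.y j + (X.y (X.gv i.1) + X.z (X.gv i.1)) + zm) +
            c * E * (1 / 2 : ℝ) ^ (X.y X.R + X.y j + D)) ≤
          (X.R + 1) * (c * err ν E zm D) := by
        rw [sum_add_distrib, sum_add_distrib, ← mul_sum]
        have h1 := mul_le_mul_of_nonneg_left s1 hSz.nu0
        unfold err
        calc _ ≤ ν * ((X.R + 1) * (c * E)) + (X.R + 1) * (c * E * (1 / 2) ^ zm) +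
              (X.R + 1) * (c * E * (1 / 2) ^ D) := by
                exact add_le_add (add_le_add h1 s2) s3
          _ = _ := by ring
      have h2 := mul_le_mul_of_nonneg_left htot hC0.le
      have h3 : C * (X.R + 1) * c * err ν E zm D = C * ((X.R + 1) * (c * err ν E zm D)) := by ring
      rw [h3]
      linarith

end Setup

end Pool.Agent.Helper75.CG
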